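import Pool.Agent.Helper31.LQ.Goals

/-!
# LQ-OFF: the moments of the projections as an integral over the linear maps
-/

open MeasureTheory Set
open scoped ENNReal Matrix
open Pool.Agent.Helper47.AQ

noncomputable section

namespace Pool.Agent.Helper85.LQ

open Pool.Agent.Helper31.LQ

variable {n d : ℕ}

/-- the columns -/
def tr (g : Fin d → E n) : Fin n → Fin d → ℝ := fun l a => g a l

lemma measurable_tr : Measurable (tr : (Fin d → E n) → Fin n → Fin d → ℝ) := by
  apply measurable_pi_lambda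
  intro l
  apply measurable_pi_lambda
  intro a
  have h1 : Continuous fun g : Fin d → E n => g a := continuous_apply a
  have h2 : Continuous fun x : E n => x l := by fun_prop
  exact (h2.comp h1).measurable

lemma grm_one (Y : Fin n → Fin d → ℝ) (a b : Fin d) : grm 1 Y a b = ∑ l, Y l a * Y l b := by
  show ∑ l, ∑ m, Y l a * (1 : Matrix (Fin n) (Fin n) ℝ) l m * Y m b = _
  apply Finset.sum_congr rfl
  intro l _
  rw [Finset.sum_eq_single l]
  · rw [Matrix.one_apply_eq, mul_one]
  · intro m _ hm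
    rw [Matrix.one_apply_ne hm.symm, mul_zero, zero_mul]
  · intro h
    exact absurd (Finset.mem_univ l) h

lemma trace_grm (Y : Fin n → Fin d → ℝ) : (grm 1 Y).trace = ∑ l, ∑ a, Y l a ^ 2 := by
  rw [Matrix.trace, Finset.sum_comm]
  apply Finset.sum_congr rfl
  intro a _
  rw [Matrix.diag_apply, grm_one]
  apply Finset.sum_congr rfl
  intro l _
  ring

lemma continuous_det_grm : Continuous fun Y : Fin n → Fin d → ℝ => (grm 1 Y).det := by
  apply Continuous.matrix_det
  apply continuous_matrix
  intro a b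
  have h : (fun Y : Fin n → Fin d → ℝ => grm 1 Y a b) = fun Y => ∑ l, Y l a * Y l b := by
    funext Y
    exact grm_one Y a b
  rw [h]
  fun_prop

lemma linInd_of_det (g : Fin d → E n) (h : (grm 1 (tr g)).det ≠ 0) : LinearIndependent ℝ g := by
  rw [Fintype.linearIndependent_iff]
  intro c hc
  have h1 : grm 1 (tr g) *ᵥ c = 0 := by
    funext a
    show ∑ b, grm 1 (tr g) a b * c b = 0
    have h2 : ∀ l, ∑ b, c b * g b l = 0 := by
      intro l
      have h3 : (∑ b, c b • g b) l = (0 : E n) l := by rw [hc]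
      simpa using h3
    calc ∑ b, grm 1 (tr g) a b * c b = ∑ b, (∑ l, tr g l a * tr g l b) * c b := by
          apply Finset.sum_congr rfl
          intro b _
          rw [grm_one]
      _ = ∑ b, ∑ l, tr g l a * (c b * g b l) := by
          apply Finset.sum_congr rfl
          intro b _
          rw [Finset.sum_mul]
          apply Finset.sum_congr rfl
          intro l _
          show tr g l a * g b l * c b = _
          ring
      _ = ∑ l, ∑ b, tr g l a * (c b * g b l) := Finset.sum_comm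
      _ = ∑ l, tr g l a * ∑ b, c b * g b l := by
          apply Finset.sum_congr rfl
          intro l _
          rw [Finset.mul_sum]
      _ = 0 := by
          apply Finset.sum_eq_zero
          intro l _
          rw [h2, mul_zero]
  have h4 := Matrix.eq_zero_of_mulVec_eq_zero h h1
  intro i
  rw [h4]
  rfl

theorem gOFF (hPV : PV) (hGD : GD) (hGPAE : GPAE) (hFKH : FKH) (hGRM : GRM) (hCO : CO) : OFF := by
  intro n d hd hdn
  obtain ⟨c, hc0, hct, hc⟩ := hGD n d
  refine ⟨c, hc0, hct, ?_⟩
  intro K hK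
  obtain ⟨K', hK'⟩ : ∃ K' : Set (Fin n → ℝ), K' = (fun x : E n => x.ofLp) '' K := ⟨_, rfl⟩
  have hcomp : IsCompact K' := by
    rw [hK']
    have hcont : Continuous fun x : E n => x.ofLp := by fun_prop
    exact hK.comp.image hcont
  rw [← hK']
  have hposdef : (1 : Matrix (Fin n) (Fin n) ℝ).PosDef := Matrix.PosDef.one
  -- almost all `Y` have a nonzero Gram determinant
  have hae : ∀ᵐ Y : Fin n → Fin d → ℝ, (grm 1 Y).det ≠ 0 := by
    filter_upwards [hGPAE n d hd hdn] with Y hY h0
    have h1 := (hGRM n d 1 hposdef Y).2.2.2.2.1 h0 univ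
    have hdet := (hY 1).1
    have hsurj : lin Y '' univ = univ := by
      apply eq_univ_of_forall
      intro z
      refine ⟨pr (emb d 1 (z ᵥ* (mat Y 1)⁻¹)), mem_univ _, ?_⟩
      have h2 := (hCO n d Y).2.2.2.2.2.2.2.2.2.2.2.1 1 (z ᵥ* (mat Y 1)⁻¹)
      rw [h2, Matrix.vecMul_vecMul, Matrix.nonsing_inv_mul _ (isUnit_iff_ne_zero.2 hdet),
        Matrix.vecMul_one]
    rw [hsurj] at h1
    exact isOpen_univ.measure_ne_zero volume univ_nonempty h1
  -- the same for almost all `g`
  have haeg : ∀ᵐ g : Fin d → E n ∂(Measure.pi fun _ : Fin d =>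
      ProbabilityTheory.stdGaussian (E n)), (grm 1 (tr g)).det ≠ 0 := by
    obtain ⟨N, hN⟩ : ∃ N : Set (Fin n → Fin d → ℝ), N = {Y | (grm 1 Y).det = 0} := ⟨_, rfl⟩
    have hNm : MeasurableSet N := by
      rw [hN]
      exact (isClosed_singleton.preimage continuous_det_grm).measurableSet
    have hN0 : volume N = 0 := by
      rw [hN]
      have := (ae_iff.1 hae)
      simpa using this
    have h1 := hc (N.indicator fun _ => 1) (measurable_const.indicator hNm)
    have h2 : ∫⁻ Y : Fin n → Fin d → ℝ, N.indicator (fun _ => (1 : ℝ≥0∞)) Y *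
        ENNReal.ofReal (Real.exp (-(∑ l, ∑ a, Y l a ^ 2) / 2)) = 0 := by
      have h3 : (fun Y : Fin n → Fin d → ℝ => N.indicator (fun _ => (1 : ℝ≥0∞)) Y *
          ENNReal.ofReal (Real.exp (-(∑ l, ∑ a, Y l a ^ 2) / 2))) =ᵐ[volume] 0 := by
        filter_upwards [hae] with Y hY
        have h4 : Y ∉ N := by
          rw [hN]
          exact hY
        rw [indicator_of_notMem h4, zero_mul]
        rfl
      rw [lintegral_congr_ae h3]
      simp
    rw [h2, mul_zero] at h1
    have hmeas : Measurable fun g : Fin d → E n => N.indicator (fun _ => (1 : ℝ≥0∞)) (tr g) :=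
      (measurable_const.indicator hNm).comp measurable_tr
    have h5 := (lintegral_eq_zero_iff hmeas).1 h1
    filter_upwards [h5] with g hg h0
    have h6 : tr g ∈ N := by
      rw [hN]
      exact h0
    have h7 : N.indicator (fun _ => (1 : ℝ≥0∞)) (tr g) = 0 := hg
    rw [indicator_of_mem h6] at h7
    exact one_ne_zero h7
  -- the function
  have hFm : Measurable fun Y : Fin n → Fin d → ℝ =>
      fK d K' Y * ENNReal.ofReal (Real.sqrt (grm 1 Y).det ^ n) := by
    apply (hFKH n d K' hcomp).1.mul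
    apply ENNReal.measurable_ofReal.comp
    exact ((Real.continuous_sqrt.comp continuous_det_grm).pow n).measurable
  have h1 := hc _ hFm
  have h2 : mom n d K = ∫⁻ g : Fin d → E n,
      (fK d K' (tr g) * ENNReal.ofReal (Real.sqrt (grm 1 (tr g)).det ^ n))
      ∂(Measure.pi fun _ : Fin d => ProbabilityTheory.stdGaussian (E n)) := by
    apply lintegral_congr_ae
    filter_upwards [haeg] with g hg
    have h3 := hPV n d g (linInd_of_det g hg) K
    have h4 : 0 ≤ (grm 1 (tr g)).det := (hGRM n d 1 hposdef (tr g)).2.1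
    have h5 : 0 < Real.sqrt (grm 1 (tr g)).det := Real.sqrt_pos.2 (lt_of_le_of_ne h4 hg.symm)
    have h6 : projVol K (Submodule.span ℝ (range g)) *
        ENNReal.ofReal (Real.sqrt (grm 1 (tr g)).det) = volume (lin (tr g) '' K') := by
      rw [hK']
      exact h3
    show (projVol K (Submodule.span ℝ (range g)) ^ n)⁻¹ =
      (volume (lin (tr g) '' K') ^ n)⁻¹ * ENNReal.ofReal (Real.sqrt (grm 1 (tr g)).det ^ n)
    rw [← h6, ENNReal.ofReal_pow h5.le, mul_pow]
    obtain ⟨D, hD⟩ : ∃ D, D = ENNReal.ofReal (Real.sqrt (grm 1 (tr g)).det) ^ n := ⟨_, rfl⟩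
    have hD0 : D ≠ 0 := by
      rw [hD]
      exact pow_ne_zero _ (ENNReal.ofReal_pos.2 h5).ne'
    have hDt : D ≠ ⊤ := by
      rw [hD]
      exact ENNReal.pow_ne_top ENNReal.ofReal_ne_top
    rw [← hD, ENNReal.mul_inv (Or.inr hDt) (Or.inr hD0), mul_assoc,
      ENNReal.inv_mul_cancel hD0 hDt, mul_one]
  rw [h2]
  have h7 : ∫⁻ g : Fin d → E n,
      (fK d K' (tr g) * ENNReal.ofReal (Real.sqrt (grm 1 (tr g)).det ^ n))
      ∂(Measure.pi fun _ : Fin d => ProbabilityTheory.stdGaussian (E n)) =
      c * ∫⁻ Y, fK d K' Y * ENNReal.ofReal (Real.sqrt (grm 1 Y).det ^ n) *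
        ENNReal.ofReal (Real.exp (-(∑ l, ∑ a, Y l a ^ 2) / 2)) := h1
  rw [h7]
  congr 1
  show _ = ∫⁻ Y, fK d K' Y * eta 1 Y
  apply lintegral_congr
  intro Y
  show _ = fK d K' Y * ENNReal.ofReal (Real.sqrt (grm 1 Y).det ^ n *
    Real.exp (-(grm 1 Y).trace / 2))
  rw [trace_grm, ENNReal.ofReal_mul (pow_nonneg (Real.sqrt_nonneg _) _), mul_assoc]

end Pool.Agent.Helper85.LQ
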